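import Pool.Agent.K4W.StmtsA
import Pool.Agent.Helper20_HUA.Hmt
import Pool.Agent.Helper20_HUA.Mor
import Pool.Agent.Helper29_HUA.NWT
import Pool.Agent.Helper37_HUA.Stp
import Pool.Agent.Helper94_HUA.Ppb
import Pool.Agent.Helper17_HUA.Ppc
import Pool.Agent.Helper24_HUA.Ppw
import Pool.Agent.Helper2_HUA.Ome
import Pool.Agent.Helper85_HUA.Hua
import Pool.Agent.Helper85_HUA.Rtp

/-!
# Squad K4W, row AHU (helper24): Hua's bound for quartic complete sums
-/

set_option autoImplicit false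

namespace Pool.Agent.K4W.H24

open Pool.Agent.VM

theorem ahu : Pool.Agent.K4W.AhuStmt := by
  have h4 : 3 ≤ 4 := by omega
  have ppb : PpbStmt 4 := H94.ppb 4 h4 H37.stp H85.rtp
  have ppc : PpcStmt 4 := H17.ppc 4 h4 H37.stp
  have mor : MorStmt 4 := H20.mor 4 h4 H29.nwt
  have ppw : PpwStmt 4 := H24.ppw 4 h4 mor ppb ppc
  exact H85.hua 4 (by omega) H20.hmt ppw H2.ome

end Pool.Agent.K4W.H24
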