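import Pool.Agent.K4W.StmtsA
import Pool.Agent.Helper69_Weyl.Dim

/-!
# Squad K4W, row AMJ (helper24): quartic sums near rational numbers
-/

set_option autoImplicit false

namespace Pool.Agent.K4W.H24

open Pool.Agent.K4W
open Pool.Agent.Helper69_Weyl (ee W norm_W_le)

/-- the bound for all blocks together -/
theorem blocks {N : ℕ} (hN : 1 ≤ N) {t ξ B : ℝ}
    (h : ∀ X Y : ℕ, 1 ≤ X → X ≤ Y → Y ≤ 2 * X → X ≤ N → ‖W 4 Y t ξ - W 4 X t ξ‖ ≤ B) (K : ℕ) :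
    ‖W 4 (min (2 ^ K) N) t ξ‖ ≤ 1 + (K : ℝ) * B := by
  induction K with
  | zero =>
    have e : min (2 ^ 0) N = 1 := by
      rw [pow_zero]
      exact min_eq_left hN
    rw [e]
    have h1 := norm_W_le 4 1 t ξ
    push_cast at h1 ⊢
    linarith
  | succ K ih =>
    have h1 : 1 ≤ min (2 ^ K) N := le_min (Nat.one_le_two_pow) hN
    have h2 : min (2 ^ K) N ≤ min (2 ^ (K + 1)) N :=
      min_le_min_right N (Nat.pow_le_pow_right (by norm_num) (by omega))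
    have h3 : min (2 ^ (K + 1)) N ≤ 2 * min (2 ^ K) N := by
      rw [pow_succ]
      omega
    have h4 := h _ _ h1 h2 h3 (min_le_right _ _)
    have h5 : ‖W 4 (min (2 ^ (K + 1)) N) t ξ‖ ≤ ‖W 4 (min (2 ^ K) N) t ξ‖ +
        ‖W 4 (min (2 ^ (K + 1)) N) t ξ - W 4 (min (2 ^ K) N) t ξ‖ := by
      have h6 := norm_add_le (W 4 (min (2 ^ K) N) t ξ)
        (W 4 (min (2 ^ (K + 1)) N) t ξ - W 4 (min (2 ^ K) N) t ξ)
      rwa [add_sub_cancel] at h6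
    push_cast
    linarith

/-- the number of the blocks -/
theorem blocks_number {δ : ℝ} (hδ : 0 < δ) {N : ℕ} (hN : 1 ≤ N) :
    ((Nat.log 2 N + 1 : ℕ) : ℝ) ≤ (1 + 2 / δ) * (N : ℝ) ^ δ := by
  have hN1 : (1 : ℝ) ≤ (N : ℝ) := by exact_mod_cast hN
  have h1 : ((Nat.log 2 N : ℕ) : ℝ) ≤ Real.logb 2 N := by
    have := Real.natLog_le_logb N 2
    exact_mod_cast this
  have h2 : Real.logb 2 N ≤ 2 * Real.log N := by
    unfold Real.logb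
    rw [div_le_iff₀ (Real.log_pos (by norm_num))]
    have h3 : (1 : ℝ) / 2 ≤ Real.log 2 := by
      have := Real.log_two_gt_d9
      linarith
    have h4 : 0 ≤ Real.log (N : ℝ) := Real.log_nonneg hN1
    nlinarith
  have h3 : Real.log (N : ℝ) ≤ (N : ℝ) ^ δ / δ := Real.log_le_rpow_div (by positivity) hδ
  have h4 : (1 : ℝ) ≤ (N : ℝ) ^ δ := Real.one_le_rpow hN1 hδ.le
  have h5 : (1 + 2 / δ) * (N : ℝ) ^ δ = (N : ℝ) ^ δ + 2 * ((N : ℝ) ^ δ / δ) := by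
    field_simp
  rw [h5]
  push_cast
  linarith

/-- one block -/
theorem one_block {δ C : ℝ} (hC : 0 < C)
    (hA : ∀ (X Y u : ℕ) (b : ℤ) (β ξ M : ℝ), 1 ≤ X → X ≤ Y →
      Y ≤ 2 * X → 1 ≤ u → Int.gcd b (u : ℤ) = 1 →
      ((X : ℝ) ≤ M ∨ (β ≠ 0 ∧ 1 / (√|β| * (X : ℝ)) ≤ M)) →
      ‖W 4 Y ((b : ℝ) / (u : ℝ) + β) ξ - W 4 X ((b : ℝ) / (u : ℝ) + β) ξ‖ ≤
        C * (u : ℝ) ^ δ * ((u : ℝ) ^ (-(1 / 4) : ℝ) * M + √((u : ℝ) * |β|) * (X : ℝ) ^ 2 +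
          √(u : ℝ))) {N u : ℕ} {b : ℤ} {t ξ : ℝ} (hN : 1 ≤ N) (hu : 1 ≤ u)
    (hb : Int.gcd b (u : ℤ) = 1) {X Y : ℕ} (hX : 1 ≤ X) (hXY : X ≤ Y) (hY : Y ≤ 2 * X)
    (hXN : X ≤ N) :
    ‖W 4 Y t ξ - W 4 X t ξ‖ ≤ 2 * C * (u : ℝ) ^ δ *
      ((N : ℝ) * ((u : ℝ) * (1 + (N : ℝ) ^ 4 * |t - (b : ℝ) / (u : ℝ)|)) ^ (-(1 / 4) : ℝ) +
        √((u : ℝ) * (1 + (N : ℝ) ^ 4 * |t - (b : ℝ) / (u : ℝ)|))) := by
  obtain ⟨β, hβ⟩ : ∃ β : ℝ, β = t - (b : ℝ) / (u : ℝ) := ⟨_, rfl⟩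
  have ht : t = (b : ℝ) / (u : ℝ) + β := by rw [hβ]; ring
  rw [← hβ]
  rw [ht]
  have hNr : (1 : ℝ) ≤ (N : ℝ) := by exact_mod_cast hN
  have hN0 : (0 : ℝ) < (N : ℝ) := by linarith
  have hur : (1 : ℝ) ≤ (u : ℝ) := by exact_mod_cast hu
  have hu0 : (0 : ℝ) < (u : ℝ) := by linarith
  have hXr : (1 : ℝ) ≤ (X : ℝ) := by exact_mod_cast hX
  have hX0 : (0 : ℝ) < (X : ℝ) := by linarith
  have hXNr : (X : ℝ) ≤ (N : ℝ) := by exact_mod_cast hXN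
  obtain ⟨T, hT⟩ : ∃ T : ℝ, T = (N : ℝ) ^ 4 * |β| := ⟨_, rfl⟩
  have hT0 : 0 ≤ T := by rw [hT]; positivity
  rw [← hT]
  obtain ⟨V, hV⟩ : ∃ V : ℝ, V = (1 + T) ^ (-(1 / 4) : ℝ) := ⟨_, rfl⟩
  have hV0 : 0 < V := by rw [hV]; positivity
  have hV4 : V ^ 4 * (1 + T) = 1 := by
    have h1 : V ^ 4 = (1 + T) ^ (-1 : ℝ) := by
      rw [hV, ← Real.rpow_natCast, ← Real.rpow_mul (by positivity)]
      norm_num
    rw [h1, Real.rpow_neg_one]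
    exact inv_mul_cancel₀ (by positivity)
  obtain ⟨M, hM⟩ : ∃ M : ℝ, M = 2 * (N : ℝ) * V := ⟨_, rfl⟩
  have hM0 : 0 < M := by rw [hM]; positivity
  have hcond : (X : ℝ) ≤ M ∨ (β ≠ 0 ∧ 1 / (√|β| * (X : ℝ)) ≤ M) := by
    by_cases hXM : (X : ℝ) ≤ M
    · exact Or.inl hXM
    · right
      push Not at hXM
      have hT1 : 1 < T := by
        by_contra hcon
        push Not at hcon
        have h1 : 1 ≤ (2 * V) ^ 4 := by
          have h2 : (2 * V) ^ 4 = 16 * V ^ 4 := by ring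
          rw [h2]
          nlinarith [pow_pos hV0 4]
        have h2 : 1 ≤ 2 * V := by
          by_contra h3
          push Not at h3
          have h4 : (2 * V) ^ 4 < 1 := pow_lt_one₀ (by positivity) h3 (by norm_num)
          linarith
        have h3 : (N : ℝ) ≤ M := by
          rw [hM]
          nlinarith
        linarith
      have hβ0 : β ≠ 0 := by
        intro h0
        rw [h0, abs_zero, mul_zero] at hT
        linarith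
      refine ⟨hβ0, ?_⟩
      have hab : 0 < |β| := abs_pos.2 hβ0
      have hsq : 0 < √|β| := Real.sqrt_pos.2 hab
      have h1 : 1 ≤ √|β| * M ^ 2 := by
        have h2 : 1 ≤ (√|β| * M ^ 2) ^ 2 := by
          have h3 : (√|β| * M ^ 2) ^ 2 = |β| * M ^ 4 := by
            rw [mul_pow, Real.sq_sqrt hab.le]
            ring
          have h4 : |β| * M ^ 4 = 16 * (T * V ^ 4) := by
            rw [hM, hT]
            ring
          rw [h3, h4]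
          have h5 : 1 + T ≤ 2 * T := by linarith
          have h6 : 0 < V ^ 4 := pow_pos hV0 4
          nlinarith [mul_le_mul_of_nonneg_left h5 h6.le]
        by_contra h3
        push Not at h3
        have h4 : (√|β| * M ^ 2) ^ 2 < 1 := pow_lt_one₀ (by positivity) h3 (by norm_num)
        linarith
      rw [div_le_iff₀ (by positivity)]
      have h2 : √|β| * M ^ 2 ≤ M * (√|β| * (X : ℝ)) := by
        have h3 : √|β| * M * M ≤ √|β| * M * (X : ℝ) :=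
          mul_le_mul_of_nonneg_left hXM.le (by positivity)
        nlinarith [h3]
      linarith
  have h1 := hA X Y u b β ξ M hX hXY hY hu hb hcond
  refine h1.trans ?_
  have huδ : 0 ≤ C * (u : ℝ) ^ δ := by positivity
  have e1 : (u : ℝ) ^ (-(1 / 4) : ℝ) * M =
      2 * ((N : ℝ) * ((u : ℝ) * (1 + T)) ^ (-(1 / 4) : ℝ)) := by
    rw [Real.mul_rpow hu0.le (by positivity), ← hV, hM]
    ring
  have hS0 : 0 ≤ √((u : ℝ) * (1 + T)) := Real.sqrt_nonneg _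
  have e2 : √((u : ℝ) * |β|) * (X : ℝ) ^ 2 ≤ √((u : ℝ) * (1 + T)) := by
    have h2 : √((u : ℝ) * |β|) * (X : ℝ) ^ 2 ≤ √((u : ℝ) * |β|) * (N : ℝ) ^ 2 := by
      have h3 : (X : ℝ) ^ 2 ≤ (N : ℝ) ^ 2 := by nlinarith
      exact mul_le_mul_of_nonneg_left h3 (Real.sqrt_nonneg _)
    have h4 : √((u : ℝ) * |β|) * (N : ℝ) ^ 2 = √((u : ℝ) * T) := by
      rw [hT]
      have h5 : (u : ℝ) * ((N : ℝ) ^ 4 * |β|) = ((u : ℝ) * |β|) * ((N : ℝ) ^ 2) ^ 2 := by ring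
      rw [h5, Real.sqrt_mul (by positivity : 0 ≤ (u : ℝ) * |β|) (((N : ℝ) ^ 2) ^ 2),
        Real.sqrt_sq (by positivity)]
    have h6 : √((u : ℝ) * T) ≤ √((u : ℝ) * (1 + T)) := by
      apply Real.sqrt_le_sqrt
      exact mul_le_mul_of_nonneg_left (by linarith) hu0.le
    linarith
  have e3 : √(u : ℝ) ≤ √((u : ℝ) * (1 + T)) := by
    apply Real.sqrt_le_sqrt
    nlinarith
  have e4 : (u : ℝ) ^ (-(1 / 4) : ℝ) * M + √((u : ℝ) * |β|) * (X : ℝ) ^ 2 + √(u : ℝ) ≤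
      2 * ((N : ℝ) * ((u : ℝ) * (1 + T)) ^ (-(1 / 4) : ℝ) + √((u : ℝ) * (1 + T))) := by
    rw [e1]
    linarith
  calc C * (u : ℝ) ^ δ * ((u : ℝ) ^ (-(1 / 4) : ℝ) * M + √((u : ℝ) * |β|) * (X : ℝ) ^ 2 +
        √(u : ℝ)) ≤ C * (u : ℝ) ^ δ *
          (2 * ((N : ℝ) * ((u : ℝ) * (1 + T)) ^ (-(1 / 4) : ℝ) + √((u : ℝ) * (1 + T)))) :=
        mul_le_mul_of_nonneg_left e4 huδ
    _ = _ := by ring

theorem amj (hAbl : AblStmt) : AmjStmt := by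
  intro ε hε
  have hδ : 0 < ε / 2 := by positivity
  obtain ⟨C, hC, hA⟩ := hAbl (ε / 2) hδ
  refine ⟨(1 + 2 * C) * (1 + 2 / (ε / 2)), by positivity, ?_⟩
  intro N u b t ξ hN hu hb
  have hNr : (1 : ℝ) ≤ (N : ℝ) := by exact_mod_cast hN
  have hur : (1 : ℝ) ≤ (u : ℝ) := by exact_mod_cast hu
  obtain ⟨T, hT⟩ : ∃ T : ℝ, T = (N : ℝ) ^ 4 * |t - (b : ℝ) / (u : ℝ)| := ⟨_, rfl⟩
  have hT0 : 0 ≤ T := by rw [hT]; positivity
  obtain ⟨G, hG⟩ : ∃ G : ℝ, G = (N : ℝ) * ((u : ℝ) * (1 + T)) ^ (-(1 / 4) : ℝ) +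
      √((u : ℝ) * (1 + T)) := ⟨_, rfl⟩
  have hG1 : 1 ≤ G := by
    have h1 : (1 : ℝ) ≤ √((u : ℝ) * (1 + T)) := by
      rw [Real.one_le_sqrt]
      nlinarith
    have h2 : 0 ≤ (N : ℝ) * ((u : ℝ) * (1 + T)) ^ (-(1 / 4) : ℝ) := by positivity
    rw [hG]
    linarith
  rw [← hT, ← hG]
  have hbl := blocks hN (t := t) (ξ := ξ) (B := 2 * C * (u : ℝ) ^ (ε / 2) * G)
    (fun X Y h1 h2 h3 h4 => by
      have h5 := one_block hC hA hN hu hb (t := t) (ξ := ξ) h1 h2 h3 h4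
      rw [← hT, ← hG] at h5
      exact h5) (Nat.log 2 N + 1)
  have hmin : min (2 ^ (Nat.log 2 N + 1)) N = N :=
    min_eq_right (Nat.lt_pow_succ_log_self (by norm_num) N).le
  rw [hmin] at hbl
  have hK := blocks_number hδ hN
  obtain ⟨K, hKe⟩ : ∃ K : ℝ, K = ((Nat.log 2 N + 1 : ℕ) : ℝ) := ⟨_, rfl⟩
  have hK1 : 1 ≤ K := by
    rw [hKe]
    push_cast
    have : (0 : ℝ) ≤ (Nat.log 2 N : ℝ) := Nat.cast_nonneg _
    linarith
  rw [← hKe] at hbl hK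
  obtain ⟨U, hU⟩ : ∃ U : ℝ, U = (u : ℝ) ^ (ε / 2) := ⟨_, rfl⟩
  have hU1 : 1 ≤ U := by
    rw [hU]
    exact Real.one_le_rpow hur hδ.le
  rw [← hU] at hbl
  have h1 : (1 : ℝ) ≤ K * U * G := by
    have h2 : 1 ≤ K * U := one_le_mul_of_one_le_of_one_le hK1 hU1
    exact one_le_mul_of_one_le_of_one_le h2 hG1
  have h2 : ‖W 4 N t ξ‖ ≤ (1 + 2 * C) * (K * U) * G := by
    refine hbl.trans ?_
    nlinarith
  have h3 : K * U ≤ (1 + 2 / (ε / 2)) * ((N : ℝ) + (u : ℝ)) ^ ε := by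
    have h4 : (N : ℝ) ^ (ε / 2) ≤ ((N : ℝ) + (u : ℝ)) ^ (ε / 2) :=
      Real.rpow_le_rpow (by positivity) (by linarith) hδ.le
    have h5 : U ≤ ((N : ℝ) + (u : ℝ)) ^ (ε / 2) := by
      rw [hU]
      exact Real.rpow_le_rpow (by positivity) (by linarith) hδ.le
    have h6 : ((N : ℝ) + (u : ℝ)) ^ ε =
        ((N : ℝ) + (u : ℝ)) ^ (ε / 2) * ((N : ℝ) + (u : ℝ)) ^ (ε / 2) := by
      rw [← Real.rpow_add (by positivity)]
      congr 1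
      ring
    rw [h6]
    have h7 : K ≤ (1 + 2 / (ε / 2)) * ((N : ℝ) + (u : ℝ)) ^ (ε / 2) :=
      hK.trans (mul_le_mul_of_nonneg_left h4 (by positivity))
    calc K * U ≤ ((1 + 2 / (ε / 2)) * ((N : ℝ) + (u : ℝ)) ^ (ε / 2)) *
          ((N : ℝ) + (u : ℝ)) ^ (ε / 2) :=
          mul_le_mul h7 h5 (by linarith) (by positivity)
      _ = _ := by ring
  calc ‖W 4 N t ξ‖ ≤ (1 + 2 * C) * (K * U) * G := h2
    _ ≤ (1 + 2 * C) * ((1 + 2 / (ε / 2)) * ((N : ℝ) + (u : ℝ)) ^ ε) * G := by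
        apply mul_le_mul_of_nonneg_right _ (by linarith)
        exact mul_le_mul_of_nonneg_left h3 (by positivity)
    _ = _ := by ring

end Pool.Agent.K4W.H24
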