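import Pool.Agent.K4W.StmtsP

/-!
# Squad K4W, row GUN (helper24): the unimodular factors
-/

set_option autoImplicit false

namespace Pool.Agent.K4W.H24

open Pool.Agent.K4W
open Pool.Agent.Helper69_Weyl (ee W)

theorem exists_inv4 {r : ℕ} {a : ℤ} (hr : Odd r) (ha : IsCoprime a (r : ℤ)) :
    ∃ w : ℤ, (r : ℤ) ∣ 4 * a * w - 1 := by
  have h2 : IsCoprime (2 : ℤ) (r : ℤ) := by
    obtain ⟨m, hm⟩ := hr
    refine ⟨-(m : ℤ), 1, ?_⟩
    rw [hm]
    push_cast
    ring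
  have h4 : IsCoprime (4 * a) (r : ℤ) := by
    have h3 : (4 : ℤ) * a = 2 * 2 * a := by ring
    rw [h3]
    exact (h2.mul_left h2).mul_left ha
  obtain ⟨u, v, huv⟩ := h4
  refine ⟨u, -v, ?_⟩
  linear_combination huv

theorem gun (hGml : GmlStmt) (hGab : GabStmt) : GunStmt := by
  intro r a b hr ha hb
  have hr0 : 0 < r := hr.pos
  have hrR : (0 : ℝ) < (r : ℝ) := by exact_mod_cast hr0
  have hs : 0 < Real.sqrt (r : ℝ) := Real.sqrt_pos.2 hrR
  have h1 : IsCoprime (1 : ℤ) (r : ℤ) := isCoprime_one_left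
  have nrm : ∀ c : ℤ, IsCoprime c (r : ℤ) → ‖GS r c 0‖ = Real.sqrt (r : ℝ) := by
    intro c hc
    obtain ⟨w, hw⟩ := exists_inv4 hr hc
    exact hGab r c 0 w hr0 hw
  have hne : GS r 1 0 ≠ 0 := by
    rw [← norm_pos_iff, nrm 1 h1]
    exact hs
  refine ⟨?_, ?_, ?_⟩
  · rw [norm_mul, nrm b hb, Complex.norm_real, Real.norm_of_nonneg (by positivity),
      Real.sqrt_eq_rpow, ← Real.rpow_add hrR]
    norm_num
  · rw [norm_div, nrm a ha, nrm 1 h1, div_self hs.ne']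
  · have h2 := hGml r a b 1 hr ha hb h1
    rw [mul_one, mul_one, mul_one] at h2
    rw [mul_div_assoc', eq_div_iff hne, h2]
    ring

end Pool.Agent.K4W.H24
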