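import Pool.Agent.K4W.StmtsU

/-!
# Squad K4W, row UEX (helper24): expansion of U
-/

set_option autoImplicit false

namespace Pool.Agent.K4W.H24

open Pool.Agent.K4W

theorem uex (hUtr : UtrStmt) (hUxa : UxaStmt) : UexStmt := by
  intro f a b ha hb hf
  have hS : Summable fun q : (ℤ × ℤ) × ℤ => F4 f a b q.1.1 q.1.2 q.2 :=
    (hUtr f a b ha hb hf).of_norm
  have hG : Summable fun p : ℤ × ℤ => ∑' x : ℤ, F4 f a b p.1 p.2 x := hS.prod
  have hG2 : Summable fun h : ℤ => ∑' m : ℤ, ∑' x : ℤ, F4 f a b h m x := hG.prod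
  have hU : ∀ h : ℤ, ((Ut f a b h : ℝ) : ℂ) = ∑' m : ℤ, ∑' x : ℤ, F4 f a b h m x :=
    hUxa f a b ha hb hf
  constructor
  · rw [← Complex.summable_ofReal]
    exact hG2.congr (fun h => (hU h).symm)
  · have h1 : U f a b = ∑' h : ℤ, Ut f a b h := rfl
    rw [h1, Complex.ofReal_tsum, hG.tsum_prod]
    exact tsum_congr hU

end Pool.Agent.K4W.H24
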