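import Pool.Agent.K4W.StmtsW

/-!
# Squad K4W, row WAO (helper24): the first two coefficients of the L-function
-/

set_option autoImplicit false

open Polynomial

namespace Pool.Agent.K4W.H24

open Pool.Agent.K4W

theorem ec_lin {p : ℕ} [Fact p.Prime] (c : ZMod p) :
    ec (X + C c : (ZMod p)[X]) 1 = -c ∧ ec (X + C c : (ZMod p)[X]) 2 = 0 ∧
      ec (X + C c : (ZMod p)[X]) 3 = 0 ∧ ec (X + C c : (ZMod p)[X]) 4 = 0 := by
  have hd : (X + C c : (ZMod p)[X]).natDegree = 1 := natDegree_X_add_C c
  have h1 : revAt 1 1 = 0 := by rw [revAt_le (le_refl 1)]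
  have h2 : ∀ i, 2 ≤ i → revAt 1 i = i := by
    intro i hi
    exact revAt_eq_self_of_lt (by omega)
  have hz : ∀ i, 2 ≤ i → (X + C c : (ZMod p)[X]).coeff i = 0 := by
    intro i hi
    exact coeff_eq_zero_of_natDegree_lt (by rw [hd]; omega)
  unfold ec
  simp only [coeff_reverse, hd]
  rw [h1, h2 2 (by norm_num), h2 3 (by norm_num), h2 4 (by norm_num), hz 2 (by norm_num),
    hz 3 (by norm_num), hz 4 (by norm_num)]
  refine ⟨?_, by simp, by simp, by simp⟩
  simp

theorem lam_lin {p : ℕ} [Fact p.Prime] (A B c : ZMod p) :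
    lam A B (X + C c : (ZMod p)[X]) = A * (-c) ^ 4 + B * (-c) := by
  obtain ⟨h1, h2, h3, h4⟩ := ec_lin c
  unfold lam
  rw [h1, h2, h3, h4]
  ring

theorem lam_one {p : ℕ} [Fact p.Prime] (A B : ZMod p) : lam A B (1 : (ZMod p)[X]) = 0 := by
  have h : ∀ i, 1 ≤ i → ec (1 : (ZMod p)[X]) i = 0 := by
    intro i hi
    unfold ec
    have h1 : (1 : (ZMod p)[X]).reverse = 1 := by
      have := reverse_C (1 : ZMod p)
      rwa [C_1] at this
    rw [h1, coeff_one, if_neg (by omega), mul_zero]
  unfold lam
  rw [h 1 (by norm_num), h 2 (by norm_num), h 3 (by norm_num), h 4 (by norm_num)]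
  ring

theorem wao : WaoStmt := by
  intro p _ A B
  classical
  constructor
  · have hM : Mon p 0 = {1} := by
      unfold Mon
      ext g
      simp only [Finset.mem_image, Finset.mem_univ, true_and, Finset.mem_singleton]
      constructor
      · rintro ⟨c, hc⟩
        rw [← hc]
        simp
      · intro hg
        refine ⟨fun i => i.elim0, ?_⟩
        rw [hg]
        simp
    unfold an
    rw [hM, Finset.sum_singleton]
    unfold chi
    rw [lam_one]
    exact AddChar.map_zero_eq_one _
  · unfold an Mon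
    rw [Finset.sum_image]
    · have h1 : ∀ c : Fin 1 → ZMod p,
          chi p A B (X ^ 1 + ∑ i : Fin 1, C (c i) * X ^ (i : ℕ)) =
            ZMod.stdAddChar (A * (-(c 0)) ^ 4 + B * (-(c 0))) := by
        intro c
        have h2 : (X ^ 1 + ∑ i : Fin 1, C (c i) * X ^ (i : ℕ) : (ZMod p)[X]) = X + C (c 0) := by
          simp
        rw [h2]
        unfold chi
        rw [lam_lin]
      rw [Finset.sum_congr rfl (fun c _ => h1 c)]
      exact Fintype.sum_equiv ((Equiv.funUnique (Fin 1) (ZMod p)).trans (Equiv.neg (ZMod p))) _ _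
        (fun c => by
          simp [Equiv.funUnique])
    · intro c _ c' _ h
      have h2 : ∀ c : Fin 1 → ZMod p,
          (X ^ 1 + ∑ i : Fin 1, C (c i) * X ^ (i : ℕ) : (ZMod p)[X]).coeff 0 = c 0 := by
        intro c
        simp
      have h3 := congrArg (fun g : (ZMod p)[X] => g.coeff 0) h
      simp only [h2] at h3
      funext i
      rw [Subsingleton.elim i 0]
      exact h3

end Pool.Agent.K4W.H24
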