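import Pool.Agent.K4W.StmtsW

/-!
# Squad K4W, row WCH (helper24): the digits of the weights
-/

set_option autoImplicit false

namespace Pool.Agent.K4W.H24

open Pool.Agent.K4W

theorem wch : WchStmt := by
  intro p hp hp5
  haveI : Fact p.Prime := ⟨hp⟩
  have h4 : (4 : ZMod p) ≠ 0 := by
    intro h
    have h1 : ((4 : ℕ) : ZMod p) = 0 := by exact_mod_cast h
    rw [ZMod.natCast_eq_zero_iff] at h1
    have := Nat.le_of_dvd (by norm_num) h1
    omega
  refine ⟨fun w => (w - 4 * ((w : ZMod p) * 4⁻¹).val) / p, fun w => ((w : ZMod p) * 4⁻¹).val, ?_⟩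
  intro w hw
  have hlt : ((w : ZMod p) * 4⁻¹).val < p := ZMod.val_lt _
  refine ⟨hlt, ?_⟩
  have hle : 4 * ((w : ZMod p) * 4⁻¹).val ≤ w := by omega
  have hdvd : p ∣ w - 4 * ((w : ZMod p) * 4⁻¹).val := by
    rw [← ZMod.natCast_eq_zero_iff, Nat.cast_sub hle]
    push_cast
    rw [ZMod.natCast_zmod_val, mul_comm (w : ZMod p), ← mul_assoc, mul_inv_cancel₀ h4, one_mul,
      sub_self]
  show p * ((w - 4 * ((w : ZMod p) * 4⁻¹).val) / p) + 4 * ((w : ZMod p) * 4⁻¹).val = w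
  rw [Nat.mul_div_cancel' hdvd]
  omega

end Pool.Agent.K4W.H24
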