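import Pool.Agent.K4W.StmtsW

/-!
# Squad K4W, row WDB (helper24): the auxiliary polynomial is not zero
-/

set_option autoImplicit false

open Polynomial

namespace Pool.Agent.K4W.H24

open Pool.Agent.K4W

theorem wdb : WdbStmt := by
  intro p m W K _ g I J a hp hm hIJ hg ha hex
  have hp0 : 0 < p := hp.pos
  obtain ⟨D, hD⟩ : ∃ D : ℕ, D = p ^ (m - 1) := ⟨_, rfl⟩
  have hD0 : 0 < D := by rw [hD]; exact pow_pos hp0 _
  have hpm : p ^ m = p * D := by
    rw [hD, ← pow_succ']
    congr 1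
    omega
  rw [← hD] at hg ha ⊢
  rw [hpm]
  have hg0 : g ≠ 0 := by
    intro h
    rw [h, natDegree_zero] at hg
    omega
  obtain ⟨F, hF⟩ : ∃ F : ℕ → K[X], F = fun w => a w * X ^ (p * D * I w) * g ^ J w := ⟨_, rfl⟩
  have hFw : ∀ w, F w = a w * X ^ (p * D * I w) * g ^ J w := fun w => by rw [hF]
  have hF0 : ∀ w, a w ≠ 0 → F w ≠ 0 := by
    intro w hw
    rw [hFw]
    exact mul_ne_zero (mul_ne_zero hw (pow_ne_zero _ X_ne_zero)) (pow_ne_zero _ hg0)
  have hF1 : ∀ w, F w ≠ 0 → a w ≠ 0 := by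
    intro w hw h0
    apply hw
    rw [hFw, h0, zero_mul, zero_mul]
  have hdeg : ∀ w ∈ Finset.Icc (4 * p) W, a w ≠ 0 →
      (F w).natDegree = (a w).natDegree + D * w := by
    intro w hw h0
    rw [Finset.mem_Icc] at hw
    have h1 := (hIJ w hw.1).2
    rw [hFw, natDegree_mul (mul_ne_zero h0 (pow_ne_zero _ X_ne_zero)) (pow_ne_zero _ hg0),
      natDegree_mul h0 (pow_ne_zero _ X_ne_zero), natDegree_X_pow, natDegree_pow, hg]
    calc (a w).natDegree + p * D * I w + J w * (4 * D) =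
        (a w).natDegree + D * (p * I w + 4 * J w) := by ring
      _ = (a w).natDegree + D * w := by rw [h1]
  have hlt : ∀ w, a w ≠ 0 → (a w).natDegree < D := by
    intro w h0
    exact (natDegree_lt_iff_degree_lt h0).2 (ha w)
  have hsep : ∀ w ∈ Finset.Icc (4 * p) W, ∀ w' ∈ Finset.Icc (4 * p) W, F w ≠ 0 → F w' ≠ 0 →
      w < w' → (F w).natDegree < (F w').natDegree := by
    intro w hw w' hw' h1 h2 hww
    rw [hdeg w hw (hF1 w h1), hdeg w' hw' (hF1 w' h2)]
    have h3 := hlt w (hF1 w h1)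
    have h4 : D * (w + 1) ≤ D * w' := Nat.mul_le_mul_left D hww
    rw [Nat.mul_add, Nat.mul_one] at h4
    omega
  have hpair : Set.Pairwise {i | i ∈ Finset.Icc (4 * p) W ∧ F i ≠ 0}
      (Function.onFun (fun x y => x ≠ y) (degree ∘ F)) := by
    intro w hw w' hw' hne h
    have h : (F w).degree = (F w').degree := h
    have h1 : (F w).natDegree = (F w').natDegree := natDegree_eq_natDegree h
    rcases Nat.lt_or_gt_of_ne hne with h2 | h2
    · have := hsep w hw.1 w' hw'.1 hw.2 hw'.2 h2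
      omega
    · have := hsep w' hw'.1 w hw.1 hw'.2 hw.2 h2
      omega
  have hsum := degree_sum_eq_of_disjoint F (Finset.Icc (4 * p) W) hpair
  have hS : (∑ w ∈ Finset.Icc (4 * p) W, a w * X ^ (p * D * I w) * g ^ J w) =
      (Finset.Icc (4 * p) W).sum F := by
    rw [hF]
  rw [hS]
  have hS0 : (Finset.Icc (4 * p) W).sum F ≠ 0 := by
    obtain ⟨w, hw, h0⟩ := hex
    intro h
    rw [h, degree_zero] at hsum
    have h1 : (F w).degree ≤ (Finset.Icc (4 * p) W).sup fun i => (F i).degree :=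
      Finset.le_sup (f := fun i => (F i).degree) hw
    rw [← hsum, le_bot_iff, degree_eq_bot] at h1
    exact hF0 w h0 h1
  refine ⟨hS0, ?_⟩
  rw [natDegree_lt_iff_degree_lt hS0, hsum, Finset.sup_lt_iff (WithBot.bot_lt_coe _)]
  intro w hw
  by_cases h0 : F w = 0
  · rw [h0, degree_zero]
    exact WithBot.bot_lt_coe _
  · have h1 := hdeg w hw (hF1 w h0)
    have h2 := hlt w (hF1 w h0)
    rw [Finset.mem_Icc] at hw
    rw [← natDegree_lt_iff_degree_lt h0, h1]
    have h3 : D * w ≤ D * W := Nat.mul_le_mul_left D hw.2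
    rw [Nat.mul_add, Nat.mul_one]
    omega

end Pool.Agent.K4W.H24
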